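import Pool.Agent.TH678.ETH.Down
import Pool.Agent.TH678.RS.Defs
import Pool.Agent.H620R2.GaugeR.Seq

/-! Oracles relative to which polynomial space is in time `2 ^ (n ^ o(1))` -/

set_option autoImplicit false

namespace Pool.Agent.U965.SC

open Pool.Agent.NPC Pool.Agent.H622R2 Pool.Agent.H620R2.Gauge Pool.Agent.H622R2.Exp Finset
  MeasureTheory Filter Pool.Agent.TH678.ETH

/-- The language `L` is in time `2 ^ (n ^ o(1))` relative to `A`: a polynomial-time algorithm which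
gets `T` ones besides the input `x` decides correctly whether `x` is in `L`, whenever
`|x| ≤ (log T) ^ c` and `T` is large, for every `c`. -/
def Fast (A : Oracle) (L : Set (List Bool)) : Prop :=
  ∃ V : List Bool → List Bool, IsFP A V ∧ ∀ c : ℕ, ∃ T₀ : ℕ, ∀ T : ℕ, T₀ ≤ T → ∀ x : List Bool,
    x.length ≤ Nat.log 2 T ^ c → (x ∈ L ↔ V (pairBits (List.replicate T true) x) = [true])

/-- `2 ^ ((log log N) ^ C)` -/
noncomputable def LL (C N : ℕ) : ℝ := 2 ^ ((Real.logb 2 (Real.logb 2 N)) ^ C)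

open Classical in
/-- the exponent -/
noncomputable def kap (f : ℕ → ℝ) (i : ℕ) : ℕ :=
  Nat.findGreatest (fun C => ∀ j, i ≤ j → ∀ N : ℕ, 2 ^ (2 ^ j) ≤ N → (2 : ℝ) ^ (j ^ C) ≤ f N) i

theorem kap_spec {f : ℕ → ℝ} {i : ℕ} (h : kap f i ≠ 0) : ∀ j, i ≤ j → ∀ N : ℕ,
    2 ^ (2 ^ j) ≤ N → (2 : ℝ) ^ (j ^ kap f i) ≤ f N := by
  classical
  exact Nat.findGreatest_of_ne_zero (P := fun C => ∀ j, i ≤ j → ∀ N : ℕ, 2 ^ (2 ^ j) ≤ N →
    (2 : ℝ) ^ (j ^ C) ≤ f N) rfl h

theorem kap_mono (f : ℕ → ℝ) {i i' : ℕ} (h : i ≤ i') : kap f i ≤ kap f i' := by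
  classical
  exact Nat.findGreatest_mono (fun C hC j hj => hC j (h.trans hj)) h

theorem loglog_ge {j N : ℕ} (hN : 2 ^ 2 ^ j ≤ N) : (j : ℝ) ≤ Real.logb 2 (Real.logb 2 N) := by
  have hNpos : 0 < N := lt_of_lt_of_le (by positivity) hN
  have h1 : ((2 : ℝ) ^ j) ≤ Real.logb 2 N := by
    rw [Real.le_logb_iff_rpow_le (by norm_num) (by exact_mod_cast hNpos)]
    have h3 : (2 : ℝ) ^ ((2 : ℝ) ^ j) = ((2 ^ 2 ^ j : ℕ) : ℝ) := by
      rw [Nat.cast_pow, ← Real.rpow_natCast ((2 : ℕ) : ℝ) (2 ^ j)]; push_cast; rfl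
    rw [h3]
    exact_mod_cast hN
  have h2 : (0 : ℝ) < Real.logb 2 N := lt_of_lt_of_le (by positivity) h1
  rw [Real.le_logb_iff_rpow_le (by norm_num) h2, Real.rpow_natCast]
  exact h1

theorem le_kap {f : ℕ → ℝ} (hf : ∀ C : ℕ, ∀ᶠ N : ℕ in atTop, LL C N < f N) (C : ℕ) :
    ∃ i₀ : ℕ, ∀ i, i₀ ≤ i → C ≤ kap f i := by
  classical
  obtain ⟨N₀, hN₀⟩ := Filter.eventually_atTop.1 (hf C)
  refine ⟨max C N₀, fun i hi => Nat.le_findGreatest (le_trans (le_max_left _ _) hi) ?_⟩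
  intro j hj N hN
  have h1 : N₀ ≤ j := le_trans (le_trans (le_max_right _ _) hi) hj
  have h2 : j < 2 ^ 2 ^ j := lt_trans Nat.lt_two_pow_self (Nat.pow_lt_pow_right (by norm_num)
    Nat.lt_two_pow_self)
  refine le_trans ?_ (hN₀ N (by omega)).le
  unfold LL
  rw [← Real.rpow_natCast 2 (j ^ C)]
  refine Real.rpow_le_rpow_of_exponent_le (by norm_num) ?_
  push_cast
  exact pow_le_pow_left₀ (Nat.cast_nonneg _) (loglog_ge hN) C

/-- the code -/
def cd (T : ℕ) (s : List Bool) : List Bool := List.replicate T true ++ false :: s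

theorem length_cd (i : ℕ) (s : List Bool) : (cd i s).length = i + 1 + s.length := by
  unfold cd
  simp
  ring

theorem cd_inj {i i' : ℕ} {s s' : List Bool} (h : cd i s = cd i' s') : i = i' ∧ s = s' :=
  CC.rep_inj _ _ _ _ h

/-- the codes that are used -/
def IX (f : ℕ → ℝ) (b : ℕ → Polynomial ℕ) : Type :=
  {p : ℕ × List Bool × ℕ // (b p.1).eval p.2.1.length ≤ p.2.2 ∧ 1 ≤ p.2.2 ∧
    p.1 + p.2.1.length + Nat.log 2 p.2.2 + 3 ≤ Nat.log 2 p.2.2 ^ kap f (Nat.log 2 p.2.2)}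

/-- the code -/
def cc (f : ℕ → ℝ) (b : ℕ → Polynomial ℕ) (p : IX f b) : List Bool :=
  cd p.1.2.2 (pr p.1.1 p.1.2.1)

theorem cc_inj (f : ℕ → ℝ) (b : ℕ → Polynomial ℕ) : Function.Injective (cc f b) := by
  rintro ⟨⟨e, x, i⟩, h⟩ ⟨⟨e', x', i'⟩, h'⟩ hh
  obtain ⟨h1, h2⟩ := cd_inj hh
  obtain ⟨h3, h4⟩ := CC.rep_inj _ _ _ _ h2
  subst h1 h3 h4
  rfl

theorem pow_mono {i I a a' s : ℕ} (hi : i ≤ I) (ha : a ≤ a') (h : s + i + 3 ≤ i ^ a) :
    s + I + 3 ≤ I ^ a' := by
  rcases Nat.eq_zero_or_pos a with h0 | h0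
  · rw [h0, pow_zero] at h
    omega
  rcases Nat.eq_zero_or_pos i with h1 | h1
  · rw [h1, zero_pow (by omega)] at h
    omega
  have hI : 1 ≤ I := by omega
  have h2 : I ^ a ≤ I ^ a' := Nat.pow_le_pow_right hI ha
  obtain ⟨m, rfl⟩ : ∃ m, a = m + 1 := ⟨a - 1, by omega⟩
  obtain ⟨t, rfl⟩ : ∃ t, I = i + t := ⟨I - i, by omega⟩
  have h3 : i ^ (m + 1) ≤ (i + t) ^ m * i := by
    rw [pow_succ]
    exact Nat.mul_le_mul_right _ (Nat.pow_le_pow_left (by omega) m)
  have h4 : (i + t) ^ (m + 1) = (i + t) ^ m * i + (i + t) ^ m * t := by ring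
  have h5 : t ≤ (i + t) ^ m * t := Nat.le_mul_of_pos_left _ (Nat.pow_pos (by omega))
  omega

open Classical in
theorem count (f : ℕ → ℝ) (b : ℕ → Polynomial ℕ) (c : ℝ) (hc0 : 0 ≤ c) (hc : ∀ N, 0 ≤ f N + c)
    (N : ℕ) : (((Finset.range N).filter (fun i => str i ∈ Set.range (cc f b))).card : ℝ) ≤
      f N + c := by
  set S := (Finset.range N).filter (fun i => str i ∈ Set.range (cc f b)) with hS
  rcases S.eq_empty_or_nonempty with h0 | ⟨n, hn⟩
  · rw [h0]
    simpa using hc N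
  · have key : ∀ n ∈ S, ∃ (e : ℕ) (x : List Bool) (T : ℕ), n = idx (cd T (pr e x)) ∧
        1 ≤ T ∧ 2 ^ 2 ^ Nat.log 2 T ≤ N ∧
        e + x.length + Nat.log 2 T + 3 ≤ Nat.log 2 T ^ kap f (Nat.log 2 T) := by
      intro n hn
      rw [hS, Finset.mem_filter, Finset.mem_range] at hn
      obtain ⟨h1, ⟨⟨e, x, T⟩, h2⟩, h3⟩ := hn
      have h4 : cd T (pr e x) = str n := h3
      refine ⟨e, x, T, by rw [h4, idx_str], h2.2.1, ?_, h2.2.2⟩
      have h5 := le_idx (cd T (pr e x))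
      rw [h4, idx_str] at h5
      have h6 : 2 ^ 2 ^ Nat.log 2 T ≤ 2 ^ (str n).length := by
        rw [← h4, length_cd]
        have h20 : 1 ≤ T := h2.2.1
        have h7 : 2 ^ Nat.log 2 T ≤ T := Nat.pow_log_le_self 2 (by omega)
        exact Nat.pow_le_pow_right (by norm_num) (by omega)
      omega
    obtain ⟨e, x, T, _, h1, h2, h3⟩ := key n hn
    set I := Nat.findGreatest (fun i => 2 ^ 2 ^ i ≤ N) N with hI
    have hbd : ∀ i, 2 ^ 2 ^ i ≤ N → i ≤ I := by
      intro i hi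
      refine Nat.le_findGreatest ?_ hi
      have h2 : i < 2 ^ 2 ^ i := lt_trans Nat.lt_two_pow_self
        (Nat.pow_lt_pow_right (by norm_num) Nat.lt_two_pow_self)
      omega
    have hIN : 2 ^ 2 ^ I ≤ N := Nat.findGreatest_spec (P := fun i => 2 ^ 2 ^ i ≤ N)
      (m := Nat.log 2 T) (by
      have h2' : Nat.log 2 T < 2 ^ 2 ^ Nat.log 2 T := lt_trans Nat.lt_two_pow_self
        (Nat.pow_lt_pow_right (by norm_num) Nat.lt_two_pow_self)
      omega) h2
    have h4 := pow_mono (hbd _ h2) (kap_mono f (hbd _ h2)) h3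
    obtain ⟨m, hm⟩ : ∃ m, I ^ kap f I = m + I + 3 := ⟨I ^ kap f I - I - 3, by omega⟩
    have h5 : kap f I ≠ 0 := by
      intro h
      rw [h, pow_zero] at hm
      omega
    have h6 := kap_spec h5 I le_rfl N hIN
    have h7 : S ⊆ (Finset.range (2 ^ (I + 1)) ×ˢ Finset.range (2 ^ (m + 2))).image
        (fun q : ℕ × ℕ => idx (cd q.1 (str q.2))) := by
      intro n hn
      obtain ⟨e, x, T, h1, _, h2, h3⟩ := key n hn
      rw [Finset.mem_image]
      refine ⟨(T, idx (pr e x)), ?_, ?_⟩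
      · rw [Finset.mem_product, Finset.mem_range, Finset.mem_range]
        refine ⟨?_, ?_⟩
        · show T < 2 ^ (I + 1)
          exact (Nat.lt_pow_succ_log_self (by norm_num) T).trans_le
            (Nat.pow_le_pow_right (by norm_num) (Nat.succ_le_succ (hbd _ h2)))
        · have h8 := pow_mono (hbd _ h2) (kap_mono f (hbd _ h2)) h3
          have h9 := idx_lt (pr e x)
          rw [length_pr] at h9
          have h10 : 2 ^ (e + 1 + x.length + 1) ≤ 2 ^ (m + 2) :=
            Nat.pow_le_pow_right (by norm_num) (by omega)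
          show idx (pr e x) < 2 ^ (m + 2)
          omega
      · show idx (cd T (str (idx (pr e x)))) = n
        rw [str_idx, h1]
    have h8 : S.card ≤ 2 ^ (I ^ kap f I) := by
      refine (Finset.card_le_card h7).trans (Finset.card_image_le.trans ?_)
      rw [Finset.card_product, Finset.card_range, Finset.card_range, hm, ← pow_add]
      exact Nat.pow_le_pow_right (by norm_num) (by omega)
    have h9 : (S.card : ℝ) ≤ 2 ^ (I ^ kap f I) := by exact_mod_cast h8
    linarith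

theorem exists_shift {f : ℕ → ℝ}
    (hf : ∀ C : ℕ, ∀ᶠ N : ℕ in atTop, LL C N < f N) :
    ∃ c : ℝ, 0 ≤ c ∧ ∀ N, 0 ≤ f N + c := by
  obtain ⟨N₀, hN₀⟩ := Filter.eventually_atTop.1 (hf 0)
  refine ⟨∑ N ∈ Finset.range N₀, |f N|, Finset.sum_nonneg fun _ _ => abs_nonneg _, fun N => ?_⟩
  have hs : 0 ≤ ∑ N ∈ Finset.range N₀, |f N| := Finset.sum_nonneg fun _ _ => abs_nonneg _
  by_cases h : N₀ ≤ N
  · have h1 := hN₀ N h
    unfold LL at h1
    rw [pow_zero, Real.rpow_one] at h1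
    linarith
  · have h1 : |f N| ≤ ∑ N ∈ Finset.range N₀, |f N| :=
      Finset.single_le_sum (f := fun N => |f N|) (fun _ _ => abs_nonneg _)
        (Finset.mem_range.2 (by omega))
    have h2 := neg_abs_le (f N)
    linarith

theorem not_null_fast {f : ℕ → ℝ}
    (hf : ∀ C : ℕ, ∀ᶠ N : ℕ in atTop, LL C N < f N) (O : Set Oracle)
    (hO : ∀ A : Oracle, (∀ L, IsPSPACE A L → Fast A L) → A ∈ O) : ¬ Null f O := by
  obtain ⟨g, hg⟩ := CC.exists_enum
  choose b hb using fun e : ℕ => CC.act_length (g e).1 (g e).2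
  obtain ⟨Φ, hΦ1, hΦ2⟩ := exists_fix (cc f b) (cc_inj f b)
    (fun p A => CC.Acc (g p.1.1).1 (CC.cut p.1.2.2 A) p.1.2.1) (by
      rintro ⟨⟨e, x, i⟩, h⟩ A A' hA
      have hcut : CC.cut i A = CC.cut i A' := by
        funext z
        unfold CC.cut
        split_ifs with hz
        · apply hA
          show z.length < (cd i (pr e x)).length
          rw [length_cd]
          omega
        · rfl
      show CC.Acc (g e).1 (CC.cut i A) x ↔ CC.Acc (g e).1 (CC.cut i A') x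
      rw [hcut])
  obtain ⟨c, hc0, hc⟩ := exists_shift hf
  refine not_null_of f Set.univ (by rw [measure_univ]; exact one_pos) Φ
    (Set.range (cc f b)) ?_ c (fun N => ?_) O fun B _ => ?_
  · intro B y hy
    apply hΦ1
    intro p h
    exact hy ⟨p, h.symm⟩
  · exact count f b c hc0 hc N
  · apply hO
    rintro L ⟨M, p, hM⟩
    obtain ⟨e, he⟩ := hg (M, p)
    have hbe := hb e
    rw [he] at hbe
    have hu1 : Poly (fun z : List Bool => (unpair z).1) := Poly.fst poly_unpair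
    have hu2 : Poly (fun z : List Bool => (unpair z).2) := Poly.snd poly_unpair
    have hask : IsFP (Φ B) (fun z => [Φ B ((unpair z).1 ++ false :: pr e (unpair z).2)]) := by
      have h1 := IsFP.tt (A := Φ B)
        (Q := fun z => [(unpair z).1 ++ false :: pr e (unpair z).2]) (H := fun y => y.2)
        (Poly.cons (Poly.append hu1 (Poly.cons (NPC.Poly.const false)
          (Poly.append (NPC.Poly.const _) (Poly.cons (NPC.Poly.const false) hu2))))
          (NPC.Poly.const [])) (Poly.snd Poly.id)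
      exact h1
    refine ⟨_, hask, fun c => ?_⟩
    -- eventually the code is used
    obtain ⟨i₀, hi₀⟩ := le_kap hf (c + e + 4)
    obtain ⟨j₀, hj₀⟩ : ∃ j₀ : ℕ, ∀ j, j₀ ≤ j → (b e).eval (j ^ c) ≤ 2 ^ j := by
      obtain ⟨j₀, hj₀⟩ := Filter.eventually_atTop.1
        (E0.poly_le ((b e).comp (Polynomial.X ^ c)) 1)
      refine ⟨j₀, fun j hj => ?_⟩
      have h2 := hj₀ j hj
      rw [Polynomial.eval_comp] at h2
      simpa using h2
    refine ⟨2 ^ (max i₀ (max j₀ 2)), fun T hT x hx => ?_⟩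
    have hT1 : 1 ≤ T := le_trans Nat.one_le_two_pow hT
    set i := Nat.log 2 T with hi
    have h1 : max i₀ (max j₀ 2) ≤ i := Nat.le_log_of_pow_le (by norm_num) hT
    have h2 : i₀ ≤ i := le_trans (le_max_left _ _) h1
    have h3 : j₀ ≤ i := le_trans (le_trans (le_max_left _ _) (le_max_right _ _)) h1
    have h4 : 2 ≤ i := le_trans (le_trans (le_max_right _ _) (le_max_right _ _)) h1
    have hTi : 2 ^ i ≤ T := Nat.pow_log_le_self 2 (by omega)
    have hbx : (b e).eval x.length ≤ T := (eval_mono _ hx).trans ((hj₀ i h3).trans hTi)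
    have hkx : e + x.length + i + 3 ≤ i ^ kap f i := by
      have h8 : i ^ (c + e + 4) ≤ i ^ kap f i := Nat.pow_le_pow_right (by omega) (hi₀ i h2)
      have h9 : i ^ (c + e + 4) = i ^ c * i ^ (e + 3) * i := by
        rw [show c + e + 4 = c + (e + 3) + 1 by ring, pow_succ, pow_add]
      have h10 : e + 4 ≤ i ^ (e + 3) := by
        have : e + 3 < 2 ^ (e + 3) := Nat.lt_two_pow_self
        exact le_trans (by omega) (Nat.pow_le_pow_left h4 (e + 3))
      have h11 : 1 ≤ i ^ c := Nat.one_le_pow _ _ (by omega)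
      have h12 : i ^ c * (e + 4) * i ≤ i ^ c * i ^ (e + 3) * i :=
        Nat.mul_le_mul_right _ (Nat.mul_le_mul_left _ h10)
      have h14 : i ^ c * 1 + (e + i + 3) ≤ i ^ c * (e + 4) * i := by
        obtain ⟨a, ha⟩ : ∃ a, i ^ c = a + 1 := ⟨i ^ c - 1, by omega⟩
        rw [ha]
        nlinarith [Nat.zero_le (a * e * i), Nat.zero_le (e * i), Nat.zero_le (a * i)]
      omega
    have hcode := hΦ2 B ⟨(e, x, T), hbx, hT1, hkx⟩
    have hV : [Φ B ((unpair (pairBits (List.replicate T true) x)).1 ++ false ::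
        pr e (unpair (pairBits (List.replicate T true) x)).2)] = [true] ↔
        CC.Acc (g e).1 (CC.cut T (Φ B)) x := by
      rw [unpair_pairBits, List.cons.injEq, and_iff_left rfl]
      exact hcode
    show _ ↔ [Φ B ((unpair (pairBits (List.replicate T true) x)).1 ++ false ::
        pr e (unpair (pairBits (List.replicate T true) x)).2)] = [true]
    rw [hV, he]
    obtain ⟨hM1, s, z, hs, hz, hL⟩ := hM x
    have hcong : ∀ s, M.Reach (CC.cut T (Φ B)) x s ↔ M.Reach (Φ B) x s := by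
      refine CC.reach_congr (fun s => s.length ≤ p.eval x.length) hM1 ?_
      intro s q h1 h2
      have h3 := hbe x s h1
      rw [h2, List.length_cons] at h3
      unfold CC.cut
      rw [if_pos (by omega)]
    constructor
    · intro hx
      refine ⟨s, (hcong s).2 hs, ?_⟩
      rw [hz, hL.1 hx]
    · rintro ⟨t, ht, ht2⟩
      have hst := CC.reach_unique hs ((hcong t).1 ht) ⟨_, hz⟩ ⟨_, ht2⟩
      rw [hst, ht2] at hz
      simp only [List.cons.injEq, true_and] at hz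
      exact hL.2 hz.symm

end Pool.Agent.U965.SC
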