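import Pool.Agent.U965.SC.Up

/-! The sizes of the sets of oracles with `M[1] = FPT` and with `W[P] = FPT` -/

set_option autoImplicit false

namespace Pool.Agent.U965.SC

open Pool.Agent.NPC Pool.Agent.H622R2 Pool.Agent.H620R2.Gauge Finset H568R2 Pool.Agent.H676 Filter
  Pool.Agent.TH678.ETH Pool.Agent.TH678.SETH Pool.Agent.TH678.WP Pool.Agent.TH678.RS

theorem isP_np {A : Oracle} {L : Set (List Bool)} (h : IsP A L) : WithAdvice (IsNP A) Lᶜ :=
  h.compl.isNP.withAdvice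

/-- `FPT` is contained in `para-coNP` with advice -/
theorem fpt_co {A : Oracle} {Q : Set (List Bool × ℕ)} (h : InFPT A Q) : InCoPN A Q := by
  obtain ⟨π, L, hπ, hL, hQ⟩ := h
  refine ⟨π, Lᶜ, isP_np hL, fun x k => ?_⟩
  rw [Set.mem_compl_iff, Set.mem_compl_iff, hQ]

theorem not_freq {f : ℕ → ℝ} (h : ¬ ∃ C : ℕ, ∃ᶠ N : ℕ in atTop, f N ≤ LL C N) :
    ∀ C : ℕ, ∀ᶠ N : ℕ in atTop, LL C N < f N := by
  intro C
  by_contra h1
  apply h
  refine ⟨C, ?_⟩
  rw [Filter.not_eventually] at h1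
  exact h1.mono fun N hN => not_lt.1 hN

/-- a gauge between the two conditions -/
noncomputable def g₀ (N : ℕ) : ℝ := 2 ^ ((2 : ℝ) ^ Real.sqrt (Real.logb 2 (Real.logb 2 N)))

theorem tendsto_loglog : Tendsto (fun N : ℕ => Real.logb 2 (Real.logb 2 N)) atTop atTop :=
  (Real.tendsto_logb_atTop (by norm_num)).comp
    ((Real.tendsto_logb_atTop (by norm_num)).comp tendsto_natCast_atTop_atTop)

theorem pow_le_two_sqrt (C : ℕ) : ∀ᶠ t : ℝ in atTop, t ^ C < (2 : ℝ) ^ Real.sqrt t := by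
  have h1 : Tendsto (fun s : ℝ => s ^ ((2 * C + 1 : ℕ) : ℝ) * Real.exp (-(Real.log 2) * s)) atTop
      (nhds 0) := tendsto_rpow_mul_exp_neg_mul_atTop_nhds_zero _ _ (Real.log_pos (by norm_num))
  have h2 : ∀ᶠ s : ℝ in atTop, s ^ ((2 * C + 1 : ℕ) : ℝ) * Real.exp (-(Real.log 2) * s) < 1 :=
    h1.eventually (gt_mem_nhds one_pos)
  have h3 : Tendsto (fun t : ℝ => Real.sqrt t) atTop atTop := Real.tendsto_sqrt_atTop
  filter_upwards [h3.eventually h2, eventually_ge_atTop 1] with t ht ht1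
  have hs : 1 ≤ Real.sqrt t := by
    rw [show (1 : ℝ) = Real.sqrt 1 by simp]
    exact Real.sqrt_le_sqrt ht1
  have e1 : t ^ C = Real.sqrt t ^ (2 * C) := by
    rw [pow_mul, Real.sq_sqrt (by linarith)]
  have e2 : (2 : ℝ) ^ Real.sqrt t = Real.exp (Real.log 2 * Real.sqrt t) :=
    Real.rpow_def_of_pos (by norm_num) _
  rw [Real.rpow_natCast, neg_mul, Real.exp_neg, ← e2] at ht
  have hpos : (0 : ℝ) < 2 ^ Real.sqrt t := by positivity
  rw [← div_eq_mul_inv, div_lt_one hpos] at ht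
  rw [e1]
  refine lt_of_le_of_lt ?_ ht
  rw [pow_succ]
  exact le_mul_of_one_le_right (by positivity) hs

theorem g₀_big (C : ℕ) : ∀ᶠ N : ℕ in atTop, LL C N < g₀ N := by
  filter_upwards [tendsto_loglog.eventually (pow_le_two_sqrt C)] with N hN
  unfold LL g₀
  exact Real.rpow_lt_rpow_of_exponent_lt (by norm_num) hN

theorem g₀_small (ε : ℝ) (hε : 0 < ε) : ∀ᶠ N : ℕ in atTop, g₀ N ≤ 2 ^ (Real.logb 2 N) ^ ε := by
  have h1 : ∀ᶠ t : ℝ in atTop, Real.sqrt t ≤ t * ε := by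
    filter_upwards [eventually_ge_atTop (1 / ε ^ 2), eventually_gt_atTop 0] with t ht ht0
    rw [Real.sqrt_le_left (by positivity)]
    rw [div_le_iff₀ (by positivity)] at ht
    calc t = t * 1 := by ring
      _ ≤ t * (t * ε ^ 2) := by gcongr
      _ = (t * ε) ^ 2 := by ring
  have h2 : Tendsto (fun N : ℕ => Real.logb 2 (N : ℝ)) atTop atTop :=
    (Real.tendsto_logb_atTop (by norm_num)).comp tendsto_natCast_atTop_atTop
  filter_upwards [tendsto_loglog.eventually h1, h2.eventually (eventually_gt_atTop 0)] with N hN h0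
  unfold g₀
  refine Real.rpow_le_rpow_of_exponent_le (by norm_num) ?_
  refine (Real.rpow_le_rpow_of_exponent_le (by norm_num) hN).trans (le_of_eq ?_)
  rw [Real.rpow_mul (by norm_num), Real.rpow_logb (by norm_num) (by norm_num) h0]

/-- smaller gauges have more null sets -/
theorem null_anti {f g : ℕ → ℝ} (h : ∀ N, g N ≤ f N) {X : Set Oracle} (hX : Null f X) :
    Null g X := by
  intro δ hδ
  obtain ⟨S, hS, hs⟩ := hX δ hδ
  refine ⟨S, hS, le_trans (ENNReal.tsum_le_tsum fun σ => ?_) hs⟩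
  apply ENNReal.ofReal_le_ofReal
  apply Real.rpow_le_rpow_of_exponent_le (by norm_num)
  have := h σ.1.length
  linarith

theorem null_union {f : ℕ → ℝ} {X Y : Set Oracle} (hX : Null f X) (hY : Null f Y) :
    Null f (X ∪ Y) := by
  have h := null_iUnion (f := f) (fun b : Bool => if b = true then X else Y) (fun b => by
    cases b
    · simpa using hY
    · simpa using hX)
  refine h.mono ?_
  rintro A (hA | hA)
  · exact Set.mem_iUnion.2 ⟨true, by simpa using hA⟩
  · exact Set.mem_iUnion.2 ⟨false, by simpa using hA⟩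

/-- **The law for `M[1]`.** -/
theorem law_m1 (f : ℕ → ℝ) (O : Set Oracle)
    (h1 : ∀ A : Oracle, (∀ L, IsPSPACE A L → Fast A L) → ¬ InCoPN A (hitW A) → A ∈ O)
    (h2 : ∀ A ∈ O, ∀ Q, InMini A Q → InCoPN A Q) :
    Null f O ↔ ∃ C : ℕ, ∃ᶠ N : ℕ in atTop, f N ≤ LL C N := by
  constructor
  · intro h
    by_contra hcon
    have hf := not_freq hcon
    set g : ℕ → ℝ := fun N => min (f N) (g₀ N) with hg
    have hg1 : Null g O := null_anti (fun N => min_le_left _ _) h
    have hg2 : Cond g := fun ε hε => ((g₀_small ε hε).mono fun N hN =>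
      (min_le_right _ _).trans hN).frequently
    have hg3 : Null g {A | InCoPN A (hitW A)} := nullW hg2 _ fun A hA => hA
    refine not_null_fast (f := g) (fun C => ?_) (O ∪ {A | InCoPN A (hitW A)}) (fun A hA => ?_)
      (null_union hg1 hg3)
    · filter_upwards [hf C, g₀_big C] with N h3 h4
      exact lt_min h3 h4
    · by_cases h3 : InCoPN A (hitW A)
      · exact Or.inr h3
      · exact Or.inl (h1 A hA h3)
  · rintro ⟨C, hC⟩
    exact nullM hC O fun A hA => h2 A hA _ (hitN_mini _ A)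

/-- **The law for `W[P]`.** -/
theorem law_wp (f : ℕ → ℝ) (O : Set Oracle)
    (h1 : ∀ A : Oracle, (∀ Q, InWP A Q → InFPT A Q) →
      (∃ L, IsNP A L ∧ ¬ WithAdvice (IsNP A) Lᶜ) → A ∈ O)
    (h2 : ∀ A ∈ O, ∀ Q, InWP A Q → InCoPN A Q) :
    Null f O ↔ ∀ ε : ℝ, 0 < ε → ∃ᶠ N : ℕ in atTop, f N ≤ 2 ^ (Real.logb 2 N) ^ ε := by
  constructor
  · intro h
    by_contra hf
    obtain ⟨g, hg⟩ := exists_alg
    obtain ⟨K, hK, hcount⟩ := exists_constS (f := f) hf
    obtain ⟨S, Φ, hc⟩ := exists_coded g K hK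
    obtain ⟨c, hcc⟩ := hcount S hc.big
    refine not_null_of f _ (ae_np hc) Φ (Set.range (cI S K)) ?_ c (fun N => ?_) O
      (fun B hB => ?_) h
    · intro B y hy
      apply hc.off
      intro p h
      exact hy ⟨p, h.symm⟩
    · exact hcc N
    · exact h1 _ (fun Q hQ => wp_fpt hg hc B hQ) hB
  · intro hf
    exact nullW hf O fun A hA => h2 A hA _ (hitW_wp A)

end Pool.Agent.U965.SC
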