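import Pool.Agent.U965.SC.Down
import Pool.Agent.TH678.WP.Down
import Pool.Agent.H620R2.Gauge2.Trans

/-! `M[1]`, `FPT` and `W[P]` relative to an oracle -/

set_option autoImplicit false

namespace Pool.Agent.U965.SC

open Pool.Agent.NPC Pool.Agent.H622R2 Pool.Agent.H620R2.Gauge Pool.Agent.H622R2.Exp Finset
  Filter Pool.Agent.TH678.ETH Pool.Agent.TH678.SETH Pool.Agent.TH678.WP Pool.Agent.TH678.RS

variable {A : Oracle} {Q : Set (List Bool × ℕ)}

theorem isP_of {F : List Bool → List Bool} (hF : IsFP A F) : IsP A {z | F z = [true]} :=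
  ⟨F, hF, fun _ => by rw [Set.mem_ofPred_eq]⟩

/-- the clock -/
def ck (z : List Bool) : ℕ :=
  (unpair (unpair z).1).1.length * (2 * (unpair z).2.length + 2)

theorem poly_len1 : UPoly (fun z : List Bool => (unpair (unpair z).1).1.length) :=
  UPoly.length (Poly.fst (poly_unpair.comp (Poly.fst poly_unpair)))

theorem poly_ck : UPoly ck := by
  have h2 : UPoly (fun z : List Bool => (unpair z).2.length) :=
    UPoly.length (Poly.snd poly_unpair)
  have h3 : UPoly (fun z : List Bool => (unpair (unpair z).1).1.length *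
      (2 * (unpair z).2.length + 2)) :=
    UPoly.mul poly_len1 (UPoly.add (UPoly.mul (UPoly.const 2) h2) (UPoly.const 2))
  exact h3

/-- **`M[1] = FPT` if polynomial space is in time `2 ^ (n ^ o(1))`.** -/
theorem m1_fpt (hA : ∀ L, IsPSPACE A L → Fast A L) (hQ : InM1 A Q) : InFPT A Q := by
  obtain ⟨π, h, c, R, L, hπ, hh, hR, hL, hQ⟩ := hQ
  obtain ⟨V, hV, hV'⟩ := hA L hL.isPSPACE
  obtain ⟨T₀, hT₀⟩ := hV' (2 * c)
  have hF : IsFP A (fun z => V (pairBits (List.replicate (ck z) true)
      (R (pairBits (unpair (unpair z).1).2 (unpair z).2)))) := by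
    refine hV.comp (IsFP.pair (IsFP.of_poly (V7.poly_replicate poly_ck)) ?_)
    exact hR.comp (IsFP.of_poly (poly_pairBits
      (Poly.snd (poly_unpair.comp (Poly.fst poly_unpair))) (Poly.snd poly_unpair)))
  refine ⟨fun k => pairBits (List.replicate (T₀ + 2 ^ h k) true) (π k), _, ?_, isP_of hF, ?_⟩
  · refine computable_pairBits.comp (computable_replicate.comp ?_) hπ
    exact Primrec.nat_add.to_comp.comp (Computable.const T₀) (computable_pow.comp hh)
  · intro x k
    obtain ⟨h1, h2⟩ := hQ x k
    rw [h2, Set.mem_ofPred_eq]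
    set z := pairBits (pairBits (List.replicate (T₀ + 2 ^ h k) true) (π k)) x with hz
    have e1 : (unpair z).2 = x := by rw [hz, unpair_pairBits]
    have e2 : (unpair (unpair z).1).2 = π k := by rw [hz, unpair_pairBits, unpair_pairBits]
    have e3 : ck z = (T₀ + 2 ^ h k) * (2 * x.length + 2) := by
      unfold ck
      rw [e1, hz, unpair_pairBits, unpair_pairBits, List.length_replicate]
    rw [e1, e2, e3]
    have hpos : 1 ≤ 2 ^ h k := Nat.one_le_two_pow
    have hl1 : h k ≤ Nat.log 2 ((T₀ + 2 ^ h k) * (2 * x.length + 2)) := by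
      apply Nat.le_log_of_pow_le (by norm_num)
      nlinarith
    have hl2 : Nat.log 2 x.length + 1 ≤
        Nat.log 2 ((T₀ + 2 ^ h k) * (2 * x.length + 2)) := by
      apply Nat.le_log_of_pow_le (by norm_num)
      have h3 : 2 ^ (Nat.log 2 x.length + 1) ≤ 2 * x.length + 2 := by
        rw [pow_succ]
        rcases Nat.eq_zero_or_pos x.length with h0 | h0
        · rw [h0]
          norm_num
        · have := Nat.pow_log_le_self 2 (show x.length ≠ 0 by omega)
          omega
      nlinarith
    refine hT₀ _ ?_ _ ?_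
    · nlinarith
    · calc (R (pairBits (π k) x)).length ≤ (h k * (Nat.log 2 x.length + 1)) ^ c := h1
        _ ≤ (Nat.log 2 ((T₀ + 2 ^ h k) * (2 * x.length + 2)) *
            Nat.log 2 ((T₀ + 2 ^ h k) * (2 * x.length + 2))) ^ c :=
            Nat.pow_le_pow_left (Nat.mul_le_mul hl1 hl2) c
        _ = _ := by rw [← sq, ← pow_mul]

/-- `FPT` is contained in `M[1]`. -/
theorem fpt_m1 (hQ : InFPT A Q) : InM1 A Q := by
  obtain ⟨π, L, hπ, ⟨V, hV, hL⟩, hQ⟩ := hQ
  refine ⟨π, fun _ => 1, 1, fun z => if V z = [true] then [true] else [], {[true]}, hπ,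
    Computable.const 1, ?_, ?_, fun x k => ⟨?_, ?_⟩⟩
  · have h1 : Poly (fun y : List Bool => if y = [true] then [true] else []) :=
      Poly.ite (Poly.decide_eq Poly.id (NPC.Poly.const _)) (NPC.Poly.const _) (NPC.Poly.const _)
    exact (IsFP.of_poly (A := A) h1).comp hV
  · have h3 : IsP A ({[true]} : Set (List Bool)) :=
      ⟨fun y => y, IsFP.of_poly Poly.id, fun y => by simp⟩
    exact h3.isNP
  · beta_reduce
    split_ifs <;> simp
  · rw [hQ, hL]
    beta_reduce
    split_ifs with h
    · simp [h]
    · simp [h]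

/-- `FPT` is contained in `W[P]`. -/
theorem fpt_wp (hQ : InFPT A Q) : InWP A Q := by
  obtain ⟨π, L, hπ, ⟨V, hV, hL⟩, hQ⟩ := hQ
  refine ⟨π, fun _ => 0, fun z => V (unpair z).2, hπ, Computable.const 0,
    hV.precomp (Poly.snd poly_unpair), fun x k => ?_⟩
  rw [hQ, hL]
  constructor
  · intro h
    exact ⟨[], by simp, by beta_reduce; rw [unpair_pairBits]; exact h⟩
  · rintro ⟨w, -, h⟩
    beta_reduce at h
    rwa [unpair_pairBits] at h

/-- the guess, the parameter in unary, the input -/
def gW (z : List Bool) : List Bool := (unpair z).1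

/-- the number of bits -/
def gN (z : List Bool) : ℕ :=
  (unpair (unpair z).2).1.length * (Nat.log 2 (unpair (unpair z).2).2.length + 1)

/-- the input -/
def gX (z : List Bool) : List Bool := (unpair (unpair z).2).2

theorem poly_gX : Poly gX := Poly.snd (poly_unpair.comp (Poly.snd poly_unpair))

theorem poly_gN : UPoly gN := by
  have h1 : UPoly (fun z : List Bool => (unpair (unpair z).2).1.length *
      (Nat.log 2 (unpair (unpair z).2).2.length + 1)) :=
    UPoly.mul (UPoly.length (Poly.fst (poly_unpair.comp (Poly.snd poly_unpair))))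
      (uPoly_log poly_gX)
  exact h1

/-- the questions -/
def gQ (z : List Bool) : List (List Bool) :=
  (List.range (gN z)).map (fun i => gX z ++ gW z ++ List.replicate (min i (gN z)) true)

/-- the verdict -/
def gH (y : List Bool × List Bool) : List Bool :=
  [decide ((gW y.1).length = gN y.1) && y.2.all (fun b => b)]

theorem poly_gQ : Poly gQ := by
  have hw : Poly gW := Poly.fst poly_unpair
  unfold gQ
  refine NPC.Poly.map (F := fun (y : List Bool) (i : ℕ) =>
    gX y ++ gW y ++ List.replicate (min i (gN y)) true) (UPoly.range poly_gN) ?_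
  have hx' : Poly (fun p : List Bool × ℕ => gX p.1) := poly_gX.comp (Poly.fst Poly.id)
  have hw' : Poly (fun p : List Bool × ℕ => gW p.1) := hw.comp (Poly.fst Poly.id)
  have hn' : UPoly (fun p : List Bool × ℕ => gN p.1) := UPoly.comp poly_gN (Poly.fst Poly.id)
  refine Poly.append (Poly.append hx' hw') (V7.poly_replicate ?_)
  exact UPoly.of_le (Poly.min (Poly.snd Poly.id) hn'.toPoly) hn' (fun p => min_le_right _ _)

theorem poly_gH : Poly gH := by
  have hw : Poly gW := Poly.fst poly_unpair
  have hw' : Poly (fun p : List Bool × List Bool => gW p.1) := hw.comp (Poly.fst Poly.id)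
  have hn' : UPoly (fun p : List Bool × List Bool => gN p.1) := UPoly.comp poly_gN (Poly.fst Poly.id)
  unfold gH
  refine Poly.cons (Poly.and (Poly.decide_eq (Poly.length hw') hn'.toPoly) ?_)
    (NPC.Poly.const [])
  exact Poly.all (p := fun (_ : List Bool × List Bool) (b : Bool) => b) (Poly.snd Poly.id)
    (Poly.snd Poly.id)

/-- **The hit problem is in `W[P]`.** -/
theorem hitW_wp (A : Oracle) : InWP A (hitW A) := by
  refine ⟨fun k => List.replicate k true, fun k => k, fun y => gH (y, (gQ y).map A),
    computable_replicate, Computable.id, IsFP.tt poly_gQ poly_gH, fun x k => ?_⟩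
  have key : ∀ w : List Bool,
      gH (pairBits w (pairBits (List.replicate k true) x),
        (gQ (pairBits w (pairBits (List.replicate k true) x))).map A) = [true] ↔
      (w.length = nn k x.length ∧ ∀ i < nn k x.length,
        A (x ++ w ++ List.replicate i true) = true) := by
    intro w
    unfold gH gQ gN gW gX nn
    simp only [unpair_pairBits, List.cons.injEq, and_true, Bool.and_eq_true, decide_eq_true_eq,
      List.all_eq_true, List.mem_map, List.mem_range, List.length_replicate]
    constructor
    · rintro ⟨h1, h2⟩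
      refine ⟨h1, fun i hi => ?_⟩
      apply h2
      refine ⟨_, ⟨i, hi, rfl⟩, ?_⟩
      rw [min_eq_left hi.le]
    · rintro ⟨h1, h2⟩
      refine ⟨h1, ?_⟩
      rintro b ⟨_, ⟨i, hi, rfl⟩, rfl⟩
      rw [min_eq_left hi.le]
      exact h2 i hi
  constructor
  · rintro ⟨j, hj, h⟩
    refine ⟨bitsOf (nn k x.length) j, ?_, ?_⟩
    · rw [length_bitsOf]
      exact le_rfl
    · rw [key]
      exact ⟨length_bitsOf _ _, h⟩
  · rintro ⟨w, _, hw⟩
    rw [key] at hw
    obtain ⟨j, hj, h⟩ := exists_bitsOf w
    rw [hw.1] at hj h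
    refine ⟨j, hj, fun i hi => ?_⟩
    unfold wt
    rw [h]
    exact hw.2 i hi

/-- A form of `M[1]` relative to `A` inside `W[P]`: by a transformation `R`, computable in time
`f k * poly |x|` relative to `A`, the instance `(x, k)` becomes a string `y` of length at most
`(h k * log |x|) ^ c`, and the question is whether there is a string `w` of at most `h k * log |x|`
bits such that the polynomial-time algorithm `V` accepts `⟨w, y⟩`. -/
def InMini (A : Oracle) (Q : Set (List Bool × ℕ)) : Prop :=
  ∃ (π : ℕ → List Bool) (h : ℕ → ℕ) (c : ℕ) (R V : List Bool → List Bool),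
    Computable π ∧ Computable h ∧ IsFP A R ∧ IsFP A V ∧ ∀ x k,
      (R (pairBits (π k) x)).length ≤ (h k * (Nat.log 2 x.length + 1)) ^ c ∧
      ((x, k) ∈ Q ↔ ∃ w : List Bool, w.length ≤ h k * (Nat.log 2 x.length + 1) ∧
        V (pairBits w (R (pairBits (π k) x))) = [true])

theorem fpt_mini (hQ : InFPT A Q) : InMini A Q := by
  obtain ⟨π, L, hπ, ⟨V, hV, hL⟩, hQ⟩ := hQ
  refine ⟨π, fun _ => 1, 1, fun z => if V z = [true] then [true] else [],
    fun z => (unpair z).2, hπ, Computable.const 1, ?_, IsFP.of_poly (Poly.snd poly_unpair),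
    fun x k => ⟨?_, ?_⟩⟩
  · have h1 : Poly (fun y : List Bool => if y = [true] then [true] else []) :=
      Poly.ite (Poly.decide_eq Poly.id (NPC.Poly.const _)) (NPC.Poly.const _) (NPC.Poly.const _)
    exact (IsFP.of_poly (A := A) h1).comp hV
  · beta_reduce
    split_ifs <;> simp
  · rw [hQ, hL]
    beta_reduce
    simp only [unpair_pairBits]
    constructor
    · intro h
      exact ⟨[], by simp, by rw [if_pos h]⟩
    · rintro ⟨w, -, h⟩
      by_contra h1
      rw [if_neg h1] at h
      simp at h

/-- `M[1]` is contained in `W[P]`. -/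
theorem mini_wp (hQ : InMini A Q) : InWP A Q := by
  obtain ⟨π, h, c, R, V, hπ, hh, hR, hV, hQ⟩ := hQ
  refine ⟨π, h, fun z => V (pairBits (unpair z).1 (R (unpair z).2)), hπ, hh, ?_, fun x k => ?_⟩
  · exact hV.comp (IsFP.pair (IsFP.of_poly (Poly.fst poly_unpair))
      (hR.comp (IsFP.of_poly (Poly.snd poly_unpair))))
  · rw [(hQ x k).2]
    beta_reduce
    simp only [unpair_pairBits]

/-- the clock of the guess -/
def gC (z : List Bool) : ℕ := (unpair (unpair z).1).1.length * (Nat.log 2 (unpair z).2.length + 1)

theorem poly_gC : UPoly gC := by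
  have h1 : UPoly (fun z : List Bool => (unpair (unpair z).1).1.length *
      (Nat.log 2 (unpair z).2.length + 1)) :=
    UPoly.mul poly_len1 (uPoly_log (Poly.snd poly_unpair))
  exact h1

/-- The narrow form of `M[1]` is contained in the wide form. -/
theorem mini_m1 (hQ : InMini A Q) : InM1 A Q := by
  obtain ⟨π, h, c, R, V, hπ, hh, hR, hV, hQ⟩ := hQ
  refine ⟨fun k => pairBits (List.replicate (h k) true) (π k), fun k => h k + 3, c + 2,
    fun z => pairBits (List.replicate (gC z) true) (R (pairBits (unpair (unpair z).1).2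
      (unpair z).2)),
    {y | ∃ w : List Bool, w.length ≤ (unpair y).1.length ∧ V (pairBits w (unpair y).2) = [true]},
    ?_, ?_, ?_, ?_, fun x k => ?_⟩
  · exact computable_pairBits.comp (computable_replicate.comp hh) hπ
  · exact Primrec.nat_add.to_comp.comp hh (Computable.const 3)
  · exact IsFP.pair (IsFP.of_poly (V7.poly_replicate poly_gC)) (hR.comp (IsFP.of_poly
      (poly_pairBits (Poly.snd (poly_unpair.comp (Poly.fst poly_unpair))) (Poly.snd poly_unpair))))
  · have h1 : IsFP A (fun z => V (pairBits (unpair z).1 (unpair (unpair z).2).2)) :=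
      hV.precomp (poly_pairBits (Poly.fst poly_unpair)
        (Poly.snd (poly_unpair.comp (Poly.snd poly_unpair))))
    have h2 : Poly (fun z : List Bool =>
        decide ((unpair z).1.length ≤ (unpair (unpair z).2).1.length)) :=
      Poly.decide_le (Poly.length (Poly.fst poly_unpair))
        (Poly.length (Poly.fst (poly_unpair.comp (Poly.snd poly_unpair))))
    have h3 : IsFP A (fun z =>
        if (unpair z).1.length ≤ (unpair (unpair z).2).1.length then
          V (pairBits (unpair z).1 (unpair (unpair z).2).2) else []) := by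
      have h4 := IsFP.seq (A := A) (F := fun z => V (pairBits (unpair z).1 (unpair (unpair z).2).2))
        (G := fun z => z) (φ := fun p => p.1)
        (ψ := fun p => if (unpair p.1).1.length ≤ (unpair (unpair p.1).2).1.length then p.2.1
          else []) h1 (IsFP.of_poly Poly.id) (Poly.fst Poly.id)
        (Poly.ite (h2.comp (Poly.fst Poly.id)) (Poly.fst (Poly.snd Poly.id)) (NPC.Poly.const _))
      exact h4
    refine ⟨_, Polynomial.X, h3, fun y => ?_⟩
    rw [Set.mem_ofPred_eq, Polynomial.eval_X]
    constructor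
    · rintro ⟨w, hw, hv⟩
      refine ⟨w, hw.trans (par_le y), ?_⟩
      beta_reduce
      rw [unpair_pairBits, if_pos hw]
      exact hv
    · rintro ⟨w, -, hv⟩
      beta_reduce at hv
      rw [unpair_pairBits] at hv
      split_ifs at hv with hw
      · exact ⟨w, hw, hv⟩
  · obtain ⟨h1, h2⟩ := hQ x k
    have e1 : (unpair (pairBits (pairBits (List.replicate (h k) true) (π k)) x)).2 = x := by
      rw [unpair_pairBits]
    have e2 : (unpair (unpair (pairBits (pairBits (List.replicate (h k) true) (π k)) x)).1).2 =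
        π k := by rw [unpair_pairBits, unpair_pairBits]
    have e3 : gC (pairBits (pairBits (List.replicate (h k) true) (π k)) x) =
        h k * (Nat.log 2 x.length + 1) := by
      unfold gC
      rw [unpair_pairBits, unpair_pairBits, List.length_replicate]
    beta_reduce
    rw [e1, e2, e3]
    constructor
    · rw [length_pairBits, List.length_replicate]
      set l := Nat.log 2 x.length + 1 with hl
      have hl1 : 1 ≤ l := by omega
      have ha : h k * l + 3 ≤ (h k + 3) * l := by nlinarith
      set a := (h k + 3) * l with haa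
      have h3 : (R (pairBits (π k) x)).length ≤ a ^ c :=
        h1.trans (Nat.pow_le_pow_left (by omega) c)
      have h4 : 1 ≤ a ^ c := Nat.one_le_pow _ _ (by omega)
      have h5 : a ^ (c + 2) = a ^ c * (a * a) := by rw [pow_add]; ring
      have h6 : 2 * a ≤ a * a := Nat.mul_le_mul_right _ (by omega)
      have h7 : a ^ c * (2 * a) ≤ a ^ c * (a * a) := Nat.mul_le_mul_left _ h6
      have h8 : a ^ c * (2 * a) = a ^ c * a + a ^ c * a := by ring
      have h9 : 1 * a ≤ a ^ c * a := Nat.mul_le_mul_right _ h4
      have h10 : a ^ c * 3 ≤ a ^ c * a := Nat.mul_le_mul_left _ (by omega)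
      have h11 : 3 * a ≤ a * a := Nat.mul_le_mul_right _ (by omega)
      have h12 : a ^ c * (3 * a) ≤ a ^ c * (a * a) := Nat.mul_le_mul_left _ h11
      have h13 : a ^ c * (3 * a) = 3 * (a ^ c * a) := by ring
      rw [h5]
      omega
    · rw [h2, Set.mem_ofPred_eq, unpair_pairBits, List.length_replicate]

/-- the number of bits -/
def pN (z : List Bool) : ℕ := (unpair (unpair z).2).1.length

/-- the questions -/
def pQ (z : List Bool) : List (List Bool) :=
  (List.range (pN z)).map (fun i => gX z ++ gW z ++ List.replicate (min i (pN z)) true)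

/-- the verdict -/
def pH (y : List Bool × List Bool) : List Bool :=
  [decide ((gW y.1).length = pN y.1) && y.2.all (fun b => b)]

theorem poly_pN : UPoly pN :=
  UPoly.length (Poly.fst (poly_unpair.comp (Poly.snd poly_unpair)))

theorem poly_pQ : Poly pQ := by
  have hw : Poly gW := Poly.fst poly_unpair
  unfold pQ
  refine NPC.Poly.map (F := fun (y : List Bool) (i : ℕ) =>
    gX y ++ gW y ++ List.replicate (min i (pN y)) true) (UPoly.range poly_pN) ?_
  have hx' : Poly (fun p : List Bool × ℕ => gX p.1) := poly_gX.comp (Poly.fst Poly.id)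
  have hw' : Poly (fun p : List Bool × ℕ => gW p.1) := hw.comp (Poly.fst Poly.id)
  have hn' : UPoly (fun p : List Bool × ℕ => pN p.1) := UPoly.comp poly_pN (Poly.fst Poly.id)
  refine Poly.append (Poly.append hx' hw') (V7.poly_replicate ?_)
  exact UPoly.of_le (Poly.min (Poly.snd Poly.id) hn'.toPoly) hn' (fun p => min_le_right _ _)

theorem poly_pH : Poly pH := by
  have hw : Poly gW := Poly.fst poly_unpair
  have hw' : Poly (fun p : List Bool × List Bool => gW p.1) := hw.comp (Poly.fst Poly.id)
  have hn' : UPoly (fun p : List Bool × List Bool => pN p.1) := UPoly.comp poly_pN (Poly.fst Poly.id)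
  unfold pH
  refine Poly.cons (Poly.and (Poly.decide_eq (Poly.length hw') hn'.toPoly) ?_)
    (NPC.Poly.const [])
  exact Poly.all (p := fun (_ : List Bool × List Bool) (b : Bool) => b) (Poly.snd Poly.id)
    (Poly.snd Poly.id)

/-- a verifier for the parametrized hit language -/
theorem hitP_ver (A : Oracle) : ∃ V : List Bool → List Bool, IsFP A V ∧ ∀ (n m : ℕ) (x : List Bool),
    n ≤ m → ((∃ w : List Bool, w.length ≤ m ∧
      V (pairBits w (pairBits (List.replicate n true) x)) = [true]) ↔
      ∃ j < 2 ^ n, ∀ i < n, A (wt x n j i) = true) := by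
  refine ⟨fun y => pH (y, (pQ y).map A), IsFP.tt poly_pQ poly_pH, fun n m x hnm => ?_⟩
  have key : ∀ w : List Bool,
      pH (pairBits w (pairBits (List.replicate n true) x),
        (pQ (pairBits w (pairBits (List.replicate n true) x))).map A) = [true] ↔
      (w.length = n ∧ ∀ i < n, A (x ++ w ++ List.replicate i true) = true) := by
    intro w
    unfold pH pQ pN gW gX
    simp only [unpair_pairBits, List.cons.injEq, and_true, Bool.and_eq_true, decide_eq_true_eq,
      List.all_eq_true, List.mem_map, List.mem_range, List.length_replicate]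
    constructor
    · rintro ⟨h1, h2⟩
      refine ⟨h1, fun i hi => ?_⟩
      apply h2
      refine ⟨_, ⟨i, hi, rfl⟩, ?_⟩
      rw [min_eq_left hi.le]
    · rintro ⟨h1, h2⟩
      refine ⟨h1, ?_⟩
      rintro b ⟨_, ⟨i, hi, rfl⟩, rfl⟩
      rw [min_eq_left hi.le]
      exact h2 i hi
  constructor
  · rintro ⟨w, _, hw⟩
    beta_reduce at hw
    rw [key] at hw
    obtain ⟨j, hj, h⟩ := exists_bitsOf w
    rw [hw.1] at hj h
    refine ⟨j, hj, fun i hi => ?_⟩
    unfold wt
    rw [h]
    exact hw.2 i hi
  · rintro ⟨j, hj, h⟩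
    refine ⟨bitsOf n j, ?_, ?_⟩
    · rw [length_bitsOf]
      exact hnm
    · beta_reduce
      rw [key]
      exact ⟨length_bitsOf _ _, h⟩

end Pool.Agent.U965.SC
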