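import Pool.Agent.U965.SC.Mini

/-! The oracles for which `M[1]` is in `para-coNP` with advice -/

set_option autoImplicit false

namespace Pool.Agent.U965.SC

open Pool.Agent.NPC Pool.Agent.H622R2 Pool.Agent.H620R2.Gauge Finset H568R2 Pool.Agent.H676 Filter
  Pool.Agent.TH678.ETH Pool.Agent.TH678.SETH Pool.Agent.TH678.WP Pool.Agent.TH678.RS

/-- the short part of the input -/
def sh (c : ℕ) (x : List Bool) : List Bool := x.take ((Nat.log 2 x.length + 1) ^ c)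

/-- a small hit problem: is there a string `w` of `k log |x|` bits such that the strings `y w 1 ^ i`,
`i < k log |x|`, are in the oracle, where `y` consists of the first `(log |x|) ^ c` bits of `x`? -/
def hitN (c : ℕ) (A : Oracle) : Set (List Bool × ℕ) :=
  {q | ∃ j < 2 ^ nn q.2 q.1.length, ∀ i < nn q.2 q.1.length,
    A (wt (sh c q.1) (nn q.2 q.1.length) j i) = true}

/-- the unary clock -/
def cL (z : List Bool) : ℕ := (unpair z).1.length * (Nat.log 2 (unpair z).2.length + 1)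

theorem poly_cL : UPoly cL := by
  have h1 : UPoly (fun z : List Bool => (unpair z).1.length *
      (Nat.log 2 (unpair z).2.length + 1)) :=
    UPoly.mul (UPoly.length (Poly.fst poly_unpair)) (uPoly_log (Poly.snd poly_unpair))
  exact h1

theorem hitN_mini (c : ℕ) (A : Oracle) : InMini A (hitN c A) := by
  obtain ⟨V, hV, hk⟩ := hitP_ver A
  refine ⟨fun k => List.replicate k true, fun k => k + 3, c + 2,
    fun z => pairBits (List.replicate (cL z) true) (sh c (unpair z).2), V,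
    computable_replicate, Primrec.nat_add.to_comp.comp Computable.id (Computable.const 3),
    ?_, hV, fun x k => ⟨?_, ?_⟩⟩
  · apply IsFP.of_poly
    have hx : Poly (fun z : List Bool => (unpair z).2) := Poly.snd poly_unpair
    have h1 : UPoly (fun z : List Bool => (Nat.log 2 (unpair z).2.length + 1) ^ c) :=
      ((uPoly_log hx).eval (Polynomial.X ^ c)).congr fun z => by simp
    exact poly_pairBits (V7.poly_replicate poly_cL) (R1.poly_take hx h1)
  · beta_reduce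
    unfold sh cL
    simp only [unpair_pairBits, List.length_replicate, length_pairBits, List.length_take]
    set l := Nat.log 2 x.length + 1 with hl
    have hl1 : 1 ≤ l := by omega
    have ha : k * l + 3 ≤ (k + 3) * l := by nlinarith
    set a := (k + 3) * l with haa
    have hla : l ≤ a := by nlinarith
    have h3 : min (l ^ c) x.length ≤ a ^ c :=
      (min_le_left _ _).trans (Nat.pow_le_pow_left hla c)
    have h4 : 1 ≤ a ^ c := Nat.one_le_pow _ _ (by omega)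
    have h5 : a ^ (c + 2) = a ^ c * (a * a) := by rw [pow_add]; ring
    have h9 : 1 * a ≤ a ^ c * a := Nat.mul_le_mul_right _ h4
    have h10 : a ^ c * 3 ≤ a ^ c * a := Nat.mul_le_mul_left _ (by omega)
    have h11 : 3 * a ≤ a * a := Nat.mul_le_mul_right _ (by omega)
    have h12 : a ^ c * (3 * a) ≤ a ^ c * (a * a) := Nat.mul_le_mul_left _ h11
    have h13 : a ^ c * (3 * a) = 3 * (a ^ c * a) := by ring
    rw [h5]
    omega
  · beta_reduce
    have e1 : cL (pairBits (List.replicate k true) x) = k * (Nat.log 2 x.length + 1) := by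
      unfold cL
      rw [unpair_pairBits, List.length_replicate]
    rw [e1, unpair_pairBits]
    rw [hk _ _ (sh c x) (show k * (Nat.log 2 x.length + 1) ≤ (k + 3) * (Nat.log 2 x.length + 1)
      from Nat.mul_le_mul_right _ (by omega))]
    rfl

/-- the padded string -/
def xx (v : ℕ) (y : List Bool) : List Bool := y ++ List.replicate (2 ^ v - y.length) false

theorem length_xx {v : ℕ} {y : List Bool} (h : y.length ≤ 2 ^ v) : (xx v y).length = 2 ^ v := by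
  unfold xx
  rw [List.length_append, List.length_replicate]
  omega

theorem sh_xx {c v : ℕ} {y : List Bool} (hy : y.length = (v + 1) ^ c) (h : y.length ≤ 2 ^ v) :
    sh c (xx v y) = y := by
  unfold sh
  rw [length_xx h, Nat.log_pow (by norm_num), ← hy]
  unfold xx
  rw [List.take_left']
  rfl

/-- the event -/
def EvM (θ : ParW) (K c v N σ R : ℕ) (a : Fin N → Bool) : Prop :=
  ∃ h ∈ (Finset.range (θ.2.2.1.eval (zl θ (2 ^ v)) + 1)).biUnion strsOf,
    ∀ k : Fin (16 * σ) × Fin R,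
    (vW θ.1 (θ.2.1.eval
      (pairBits (pairBits θ.2.2.2 (xx v (inp ((v + 1) ^ c) σ R k))) h).length) N
      (pairBits (pairBits θ.2.2.2 (xx v (inp ((v + 1) ^ c) σ R k))) h) a = true ↔
      ¬ HitF (WP (nn K (2 ^ v)) ((v + 1) ^ c) N σ R k) a)

theorem zlenM (θ : ParW) {c v : ℕ} (hv : (v + 1) ^ c ≤ 2 ^ v) (σ R : ℕ)
    (k : Fin (16 * σ) × Fin R) :
    (pairBits θ.2.2.2 (xx v (inp ((v + 1) ^ c) σ R k))).length = zl θ (2 ^ v) := by
  rw [length_pairBits, length_xx (by rw [length_inp]; exact hv)]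
  unfold zl
  ring

open Classical in
theorem evM_bound (θ : ParW) {K c v N σ R T : ℕ} (hn : 1 ≤ nn K (2 ^ v))
    (hv : (v + 1) ^ c ≤ 2 ^ v)
    (hT1 : θ.1.p.eval (L1 θ (zl θ (2 ^ v))) ≤ T)
    (hR1 : 1 ≤ R) (hR : 2 * T ≤ R) (hT : 2 * T ≤ 2 ^ nn K (2 ^ v))
    (hσ : 16 * σ * R ≤ 2 ^ (v + 1) ^ c)
    (hN : 2 ^ ((v + 1) ^ c + 2 * nn K (2 ^ v) + 1) ≤ N + 1) :
    Ex unif (fun a : Fin N → Bool => if EvM θ K c v N σ R a then (1 : ℝ) else 0) ≤
      2 ^ (2 * θ.2.2.1.eval (zl θ (2 ^ v))) * (2 * (2 / 3 : ℝ) ^ σ) := by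
  set T' := θ.2.2.1.eval (zl θ (2 ^ v)) with hT'
  have h := Ex_union ((Finset.range (T' + 1)).biUnion strsOf)
    (fun (h : List Bool) (a : Fin N → Bool) => ∀ k : Fin (16 * σ) × Fin R,
    (vW θ.1 (θ.2.1.eval
      (pairBits (pairBits θ.2.2.2 (xx v (inp ((v + 1) ^ c) σ R k))) h).length) N
      (pairBits (pairBits θ.2.2.2 (xx v (inp ((v + 1) ^ c) σ R k))) h) a = true ↔
      ¬ HitF (WP (nn K (2 ^ v)) ((v + 1) ^ c) N σ R k) a)) (2 * (2 / 3 : ℝ) ^ σ) (by
    intro h hh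
    have hlen : h.length ≤ T' := by
      obtain ⟨c', hc1, hc2⟩ := Finset.mem_biUnion.1 hh
      obtain ⟨i, _, rfl⟩ := Finset.mem_image.1 hc2
      rw [length_bitsOf]
      rw [Finset.mem_range] at hc1
      omega
    have hcomb := np_comb (p := T) (J := Fin (2 ^ nn K (2 ^ v))) hn (by simp) hT hR hR1
      (WP (nn K (2 ^ v)) ((v + 1) ^ c) N σ R) ?_ ?_
      (fun k => vW θ.1 (θ.2.1.eval
        (pairBits (pairBits θ.2.2.2 (xx v (inp ((v + 1) ^ c) σ R k))) h).length) N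
      (pairBits (pairBits θ.2.2.2 (xx v (inp ((v + 1) ^ c) σ R k))) h)) ?_
    · refine le_trans (le_of_eq (congrArg _ (funext fun a => ?_))) hcomb
      by_cases hh : ∀ k, (vW θ.1 (θ.2.1.eval
          (pairBits (pairBits θ.2.2.2 (xx v (inp ((v + 1) ^ c) σ R k))) h).length) N
          (pairBits (pairBits θ.2.2.2 (xx v (inp ((v + 1) ^ c) σ R k))) h) a = true ↔
        ¬ HitF (WP (nn K (2 ^ v)) ((v + 1) ^ c) N σ R k) a)
      · rw [if_pos hh, if_pos hh]
      · rw [if_neg hh, if_neg hh]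
    · intro k j
      rw [WP, wF_card (by rw [length_inp]; exact hN)]
    · intro k j k' j' hne
      apply wF_disj
      · rw [length_inp, length_inp]
      · exact j.2
      · exact j'.2
      · intro he
        apply hne
        rw [Prod.mk.injEq] at he
        rw [inp_inj hσ he.1, Fin.ext he.2]
    · intro k x hx
      have hyl : (pairBits (pairBits θ.2.2.2 (xx v (inp ((v + 1) ^ c) σ R k))) h).length ≤
          Ly θ (zl θ (2 ^ v)) := by
        rw [length_pairBits, zlenM θ hv]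
        unfold Ly
        omega
      obtain ⟨A, hA, hy⟩ := cert_vW θ.1 (N := N) (ℓ := L1 θ (zl θ (2 ^ v)))
        (m := θ.2.1.eval
          (pairBits (pairBits θ.2.2.2 (xx v (inp ((v + 1) ^ c) σ R k))) h).length)
        (y := pairBits (pairBits θ.2.2.2 (xx v (inp ((v + 1) ^ c) σ R k))) h) (by
          have := eval_mono θ.2.1 hyl
          unfold L1
          omega) x hx
      exact ⟨A, hA.trans hT1, hy⟩) (EvM θ K c v N σ R) (fun a ha => ha)
  refine h.trans ?_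
  apply mul_le_mul_of_nonneg_right _ (by positivity)
  have hcard : ((Finset.range (T' + 1)).biUnion strsOf).card ≤ 2 ^ (2 * T') := by
    refine (Finset.card_biUnion_le_card_mul _ _ (2 ^ T') fun c hc => ?_).trans ?_
    · rw [Finset.mem_range, Nat.lt_succ_iff] at hc
      exact (card_strsOf c).trans (Nat.pow_le_pow_right (by norm_num) hc)
    · rw [Finset.card_range]
      have h2 : T' + 1 ≤ 2 ^ T' := Nat.lt_two_pow_self
      calc (T' + 1) * 2 ^ T' ≤ 2 ^ T' * 2 ^ T' := Nat.mul_le_mul_right _ h2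
        _ = 2 ^ (2 * T') := by rw [← pow_add]; congr 1; ring
  exact_mod_cast hcard

/-- the oracles for which the parameters are good -/
def EasyM (c : ℕ) (θ : ParW) : Set Oracle :=
  {A | ∃ (V : List Bool → List Bool) (h : ℕ → List Bool),
    (∀ x, θ.1.out A x = some (V x)) ∧ (∀ n, (h n).length ≤ θ.2.2.1.eval n) ∧
    ∀ x, (x, KK θ.1 θ.2.1 θ.2.2.1) ∉ hitN c A ↔
      ∃ w : List Bool, w.length ≤ θ.2.1.eval
        (pairBits (pairBits θ.2.2.2 x) (h (pairBits θ.2.2.2 x).length)).length ∧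
        V (pairBits w (pairBits (pairBits θ.2.2.2 x) (h (pairBits θ.2.2.2 x).length))) = [true]}

theorem mem_easyM {c : ℕ} {A : Oracle} (h : InCoPN A (hitN c A)) : ∃ θ, A ∈ EasyM c θ := by
  obtain ⟨π, L, ⟨L', h, p', ⟨V, p, ⟨M, hM⟩, hL'⟩, hh, hx⟩, hQ⟩ := h
  refine ⟨⟨M, p, p', π (KK M p p')⟩, V, h, hM, hh, fun x => ?_⟩
  have h1 := hQ x (KK M p p')
  rw [Set.mem_compl_iff, hx, hL'] at h1
  exact h1

theorem hitN_iff {K c v N σ R : ℕ} (hv : (v + 1) ^ c ≤ 2 ^ v)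
    (hN : 2 ^ ((v + 1) ^ c + 2 * nn K (2 ^ v) + 1) ≤ N + 1) (A : Oracle)
    (k : Fin (16 * σ) × Fin R) :
    HitF (WP (nn K (2 ^ v)) ((v + 1) ^ c) N σ R k) (pre N A) ↔
      (xx v (inp ((v + 1) ^ c) σ R k), K) ∈ hitN c A := by
  rw [hitP_iff hN]
  unfold hitP hitN
  rw [Set.mem_ofPred_eq, Set.mem_ofPred_eq, par_ins]
  beta_reduce
  rw [sh_xx (length_inp _ _ _ _) (by rw [length_inp]; exact hv),
    length_xx (by rw [length_inp]; exact hv)]
  unfold ins
  rw [unpair_pairBits]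

theorem evM_of_easy (θ : ParW) {qb : Polynomial ℕ}
    (hqb : ∀ (A : Oracle) (x : List Bool), ∃ Q : Finset (List Bool),
      Q.card ≤ θ.1.p.eval x.length ∧ (∀ q ∈ Q, q.length ≤ qb.eval x.length) ∧
      ∀ A' : Oracle, (∀ q ∈ Q, A' q = A q) → θ.1.out A' x = θ.1.out A x)
    {A : Oracle} {c : ℕ} (hA : A ∈ EasyM c θ) {v N σ R : ℕ} (hv : (v + 1) ^ c ≤ 2 ^ v)
    (hN : 2 ^ (qb.eval (L1 θ (zl θ (2 ^ v))) + 1) ≤ N)
    (hN' : 2 ^ ((v + 1) ^ c + 2 * nn (KK θ.1 θ.2.1 θ.2.2.1) (2 ^ v) + 1) ≤ N + 1) :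
    EvM θ (KK θ.1 θ.2.1 θ.2.2.1) c v N σ R (pre N A) := by
  classical
  obtain ⟨V, h, hM, hh, hx⟩ := hA
  refine ⟨h (zl θ (2 ^ v)), ?_, fun k => ?_⟩
  · rw [Finset.mem_biUnion]
    exact ⟨(h (zl θ (2 ^ v))).length, Finset.mem_range.2 (by have := hh (zl θ (2 ^ v)); omega),
      mem_strsOf _⟩
  have h1 := hx (xx v (inp ((v + 1) ^ c) σ R k))
  rw [zlenM θ hv] at h1
  rw [hitN_iff hv hN']
  have hyl : (pairBits (pairBits θ.2.2.2 (xx v (inp ((v + 1) ^ c) σ R k)))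
      (h (zl θ (2 ^ v)))).length ≤ Ly θ (zl θ (2 ^ v)) := by
    rw [length_pairBits, zlenM θ hv]
    have := hh (zl θ (2 ^ v))
    unfold Ly
    omega
  have hout : ∀ y : List Bool, y.length ≤ L1 θ (zl θ (2 ^ v)) →
      θ.1.out (orc N (pre N A)) y = some (V y) := by
    intro y hy
    obtain ⟨Q, _, hQ2, hQ3⟩ := hqb A y
    rw [hQ3 _ fun q hq => ?_, hM y]
    apply orc_pre
    have h2 := idx_lt q
    have h3 : q.length ≤ qb.eval (L1 θ (zl θ (2 ^ v))) := (hQ2 q hq).trans (eval_mono _ hy)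
    have h4 : 2 ^ (q.length + 1) ≤ 2 ^ (qb.eval (L1 θ (zl θ (2 ^ v))) + 1) :=
      Nat.pow_le_pow_right (by norm_num) (by omega)
    omega
  have h2 : vW θ.1 (θ.2.1.eval
      (pairBits (pairBits θ.2.2.2 (xx v (inp ((v + 1) ^ c) σ R k))) (h (zl θ (2 ^ v)))).length) N
      (pairBits (pairBits θ.2.2.2 (xx v (inp ((v + 1) ^ c) σ R k))) (h (zl θ (2 ^ v))))
      (pre N A) = true ↔
      ∃ w : List Bool, w.length ≤ θ.2.1.eval
        (pairBits (pairBits θ.2.2.2 (xx v (inp ((v + 1) ^ c) σ R k)))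
          (h (zl θ (2 ^ v)))).length ∧
      V (pairBits w (pairBits (pairBits θ.2.2.2 (xx v (inp ((v + 1) ^ c) σ R k)))
        (h (zl θ (2 ^ v))))) = [true] := by
    unfold vW
    rw [decide_eq_true_iff]
    refine exists_congr fun w => and_congr_right fun hw => ?_
    rw [hout _ (by
      rw [length_pairBits]
      have := eval_mono θ.2.1 hyl
      unfold L1
      omega), Option.some.injEq]
  rw [h2]
  exact h1.symm

theorem pick {f : ℕ → ℝ} {C : ℕ} (hf : ∃ᶠ N : ℕ in atTop, f N ≤ LL C N) (u₀ : ℕ) :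
    ∃ N u : ℕ, u₀ ≤ u ∧ 2 ^ (2 ^ u + 1) ≤ N ∧ f N ≤ 2 ^ ((u + 2) ^ C) := by
  obtain ⟨N, hN, hfN⟩ := (Filter.frequently_atTop.1 hf) (2 ^ (2 ^ (u₀ + 1) + 2))
  have hN1 : 1 ≤ N := le_trans Nat.one_le_two_pow hN
  set ℓ := Nat.log 2 N with hℓ
  have h1 : 2 ^ ℓ ≤ N := Nat.pow_log_le_self 2 (by omega)
  have h2 : N < 2 ^ (ℓ + 1) := Nat.lt_pow_succ_log_self (by norm_num) N
  have h3 : 2 ^ (u₀ + 1) + 2 ≤ ℓ := by
    have := Nat.log_mono_right (b := 2) hN
    rwa [Nat.log_pow (by norm_num)] at this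
  set u := Nat.log 2 (ℓ - 1) with hu
  have h40 : 1 ≤ 2 ^ (u₀ + 1) := Nat.one_le_two_pow
  have h4 : 2 ^ u ≤ ℓ - 1 := Nat.pow_log_le_self 2 (by omega)
  have h5 : ℓ - 1 < 2 ^ (u + 1) := Nat.lt_pow_succ_log_self (by norm_num) _
  have h6 : u₀ + 1 ≤ u := by
    have := Nat.log_mono_right (b := 2) (show 2 ^ (u₀ + 1) ≤ ℓ - 1 by omega)
    rwa [Nat.log_pow (by norm_num)] at this
  refine ⟨N, u, by omega, le_trans (Nat.pow_le_pow_right (by norm_num) (by omega)) h1,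
    hfN.trans ?_⟩
  have hl : (1 : ℝ) ≤ Real.logb 2 N := by
    rw [Real.le_logb_iff_rpow_le (by norm_num) (by exact_mod_cast hN1), Real.rpow_one]
    have : 2 ^ 1 ≤ 2 ^ ℓ := Nat.pow_le_pow_right (by norm_num) (by omega)
    exact_mod_cast (show 2 ≤ N by omega)
  have h7 : Real.logb 2 N ≤ 2 ^ (u + 2) := by
    have h8 : Real.logb 2 N ≤ ((ℓ + 1 : ℕ) : ℝ) := by
      rw [Real.logb_le_iff_le_rpow (by norm_num) (by exact_mod_cast hN1), Real.rpow_natCast]
      exact_mod_cast h2.le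
    refine h8.trans ?_
    have h9 : ℓ + 1 ≤ 2 ^ (u + 2) := by
      have : 2 ^ (u + 2) = 2 * 2 ^ (u + 1) := by ring
      have h10 : 2 ≤ 2 ^ (u + 1) := by
        calc 2 = 2 ^ 1 := rfl
          _ ≤ 2 ^ (u + 1) := Nat.pow_le_pow_right (by norm_num) (by omega)
      omega
    exact_mod_cast h9
  have h8 : Real.logb 2 (Real.logb 2 N) ≤ ((u + 2 : ℕ) : ℝ) := by
    rw [Real.logb_le_iff_le_rpow (by norm_num) (by linarith), Real.rpow_natCast]
    exact h7
  have h0 : 0 ≤ Real.logb 2 (Real.logb 2 N) := Real.logb_nonneg (by norm_num) hl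
  unfold LL
  rw [← Real.rpow_natCast 2 ((u + 2) ^ C)]
  refine Real.rpow_le_rpow_of_exponent_le (by norm_num) ?_
  push_cast
  have := pow_le_pow_left₀ h0 h8 C
  push_cast at this
  exact this

theorem small {u w E Y : ℕ} (hw : E + u + 3 ≤ w) (hY : Y ≤ 2 ^ u) {F : ℝ} (hF : F ≤ 2 ^ E) :
    2 ^ (2 * Y) * (2 * (2 / 3 : ℝ) ^ (2 ^ (w + 1))) * 2 ^ F ≤ 2 ^ (-(u : ℝ)) := by
  have h1 : (2 / 3 : ℝ) ^ (2 ^ (w + 1)) ≤ 2 ^ (-((2 : ℝ) ^ w)) := by
    have e1 : (2 / 3 : ℝ) ^ (2 ^ (w + 1)) = ((2 / 3) ^ 2) ^ (2 ^ w) := by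
      rw [← pow_mul]; congr 1; ring
    rw [e1, Real.rpow_neg (by norm_num)]
    have e2 : (2 : ℝ) ^ ((2 : ℝ) ^ w) = 2 ^ (2 ^ w) := by
      rw [← Real.rpow_natCast 2 (2 ^ w)]; push_cast; rfl
    rw [e2, ← inv_pow]
    exact pow_le_pow_left₀ (by norm_num) (by norm_num) _
  have h2 : (2 : ℝ) ^ (2 * Y) ≤ 2 ^ ((2 : ℝ) * 2 ^ u) := by
    have h3 : (2 : ℝ) ^ (2 * Y) ≤ 2 ^ (2 * 2 ^ u) :=
      pow_le_pow_right₀ (by norm_num) (Nat.mul_le_mul_left _ hY)
    refine h3.trans (le_of_eq ?_)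
    rw [← Real.rpow_natCast 2 (2 * 2 ^ u)]; push_cast; rfl
  have h3 : (2 : ℝ) ^ (2 * Y) * (2 * (2 / 3 : ℝ) ^ (2 ^ (w + 1))) * 2 ^ F ≤
      2 ^ ((2 : ℝ) * 2 ^ u + (1 + -((2 : ℝ) ^ w)) + F) := by
    rw [Real.rpow_add (by norm_num), Real.rpow_add (by norm_num), Real.rpow_add (by norm_num),
      Real.rpow_one]
    gcongr
  refine h3.trans (Real.rpow_le_rpow_of_exponent_le (by norm_num) ?_)
  have hb : (u : ℝ) + 1 ≤ 2 ^ u := by
    have : u + 1 ≤ 2 ^ u := Nat.lt_two_pow_self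
    exact_mod_cast this
  have hv3 : (2 : ℝ) ^ E * 2 ^ u * 8 ≤ 2 ^ w := by
    calc (2 : ℝ) ^ E * 2 ^ u * 8 = 2 ^ (E + u + 3) := by
          rw [pow_add, pow_add]; norm_num
      _ ≤ 2 ^ w := pow_le_pow_right₀ (by norm_num) hw
  set a : ℝ := 2 ^ E with ha
  set b : ℝ := 2 ^ u with hb'
  have ha1 : 1 ≤ a := one_le_pow₀ (by norm_num)
  have hb1 : 1 ≤ b := one_le_pow₀ (by norm_num)
  nlinarith

theorem poly_two (P : Polynomial ℕ) : ∃ d : ℕ, 1 ≤ d ∧ ∀ v, 1 ≤ v → P.eval (2 ^ v) ≤ 2 ^ (d * v) := by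
  refine ⟨P.eval 1 + P.natDegree + 1, by omega, fun v hv => ?_⟩
  refine (H529R3.Lev.poly_le P (2 ^ v) Nat.one_le_two_pow).trans ?_
  calc P.eval 1 * (2 ^ v) ^ P.natDegree ≤ 2 ^ P.eval 1 * (2 ^ v) ^ P.natDegree :=
        Nat.mul_le_mul_right _ Nat.lt_two_pow_self.le
    _ = 2 ^ (P.eval 1 + v * P.natDegree) := by rw [← pow_mul, ← pow_add]
    _ ≤ _ := Nat.pow_le_pow_right (by norm_num) (by nlinarith [Nat.zero_le (P.eval 1)])

theorem deg_bound (P : Polynomial ℕ) (s : ℕ) : ∃ v₀ : ℕ, ∀ v, v₀ ≤ v →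
    2 * P.eval (s + 2 ^ v) ≤ 2 ^ ((P.natDegree + 1) * (v + 1)) := by
  refine ⟨s + 2 * P.eval 1, fun v hv => ?_⟩
  have h1 : v < 2 ^ v := Nat.lt_two_pow_self
  have h2 : s + 2 ^ v ≤ 2 ^ (v + 1) := by rw [pow_succ]; omega
  have h3 : 2 * P.eval 1 ≤ 2 ^ (v + 1) := by rw [pow_succ]; omega
  have h4 : P.eval (s + 2 ^ v) ≤ P.eval 1 * (s + 2 ^ v) ^ P.natDegree :=
    H529R3.Lev.poly_le P (s + 2 ^ v) (by omega)
  calc 2 * P.eval (s + 2 ^ v) ≤ 2 * (P.eval 1 * (2 ^ (v + 1)) ^ P.natDegree) :=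
        Nat.mul_le_mul_left _ (h4.trans (Nat.mul_le_mul_left _ (Nat.pow_le_pow_left h2 _)))
    _ = 2 * P.eval 1 * (2 ^ (v + 1)) ^ P.natDegree := by ring
    _ ≤ 2 ^ (v + 1) * (2 ^ (v + 1)) ^ P.natDegree := Nat.mul_le_mul_right _ h3
    _ = 2 ^ ((P.natDegree + 1) * (v + 1)) := by rw [← pow_mul, ← pow_add]; congr 1; ring

theorem ev_pow (a c : ℕ) : ∃ u₀ : ℕ, ∀ u, u₀ ≤ u → a * (u + 1) ^ c ≤ 2 ^ u := by
  obtain ⟨j₀, hj₀⟩ := Filter.eventually_atTop.1
    (Pool.Agent.H622R2.Exp.E0.poly_le (Polynomial.C a * (Polynomial.X + 1) ^ c) 1)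
  refine ⟨j₀, fun j hj => ?_⟩
  have h2 := hj₀ j hj
  simpa using h2

/-- **`M[1]` is in `para-coNP` with advice only relative to few oracles.** -/
theorem nullM {f : ℕ → ℝ} {C : ℕ} (hf : ∃ᶠ N : ℕ in atTop, f N ≤ LL C N) (O : Set Oracle)
    (hO : ∀ A ∈ O, InCoPN A (hitN (C + 2) A)) : Null f O := by
  have hpc := CC.poly_countable
  have hcount : Countable ParW := by unfold ParW; infer_instance
  refine (null_iUnion (f := f) (EasyM (C + 2)) fun θ => ?_).mono fun A hA => ?_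
  · intro δ hδ
    obtain ⟨qb, hqb⟩ := Alg.out_local θ.1
    set s := 2 * θ.2.2.2.length + 1 with hs
    set Z : Polynomial ℕ := Polynomial.C s + Polynomial.X with hZ
    set Lp : Polynomial ℕ := 2 * θ.2.1.comp (2 * Polynomial.X + 1 + θ.2.2.1) + 1 +
      (2 * Polynomial.X + 1 + θ.2.2.1) with hLp
    set P : Polynomial ℕ := θ.1.p.comp (Lp.comp Z) + θ.2.2.1.comp Z + qb.comp (Lp.comp Z) with hP
    obtain ⟨d, hd1, hd⟩ := poly_two P
    have hZe : ∀ L : ℕ, Z.eval L = zl θ L := by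
      intro L
      rw [hZ]
      simp [zl, hs]
    have hLpe : ∀ X : ℕ, Lp.eval X = L1 θ X := by
      intro X
      rw [hLp]
      simp [Polynomial.eval_comp, L1, Ly]
    have hPe : ∀ L : ℕ, P.eval L = θ.1.p.eval (L1 θ (zl θ L)) + θ.2.2.1.eval (zl θ L) +
        qb.eval (L1 θ (zl θ L)) := by
      intro L
      rw [hP]
      simp [Polynomial.eval_comp, hZe, hLpe]
    clear_value P
    have e2 : ∀ᶠ u : ℕ in atTop, (2 : ℝ) ^ (-(u : ℝ)) ≤ δ := by
      have h := tendsto_pow_atTop_nhds_zero_of_lt_one (r := (1 / 2 : ℝ)) (by norm_num)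
        (by norm_num)
      filter_upwards [h.eventually (gt_mem_nhds hδ)] with u hu
      rw [Real.rpow_neg (by norm_num), Real.rpow_natCast, ← inv_pow]
      have : ((2 : ℝ)⁻¹) ^ u = (1 / 2) ^ u := by norm_num
      rw [this]
      exact hu.le
    obtain ⟨u₁, hu₁⟩ := Filter.eventually_atTop.1 e2
    obtain ⟨u₂, hu₂⟩ := ev_pow 3 (C + 2)
    obtain ⟨v₀, hv₀⟩ := deg_bound (T1 θ.1 θ.2.1 θ.2.2.1) s
    set K := KK θ.1 θ.2.1 θ.2.2.1 with hK
    have hKd : K = (T1 θ.1 θ.2.1 θ.2.2.1).natDegree + 1 := rfl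
    set m₀ := (d + 1) ^ C + 3 * (d + 1) + 12 with hm₀
    obtain ⟨N, u, hu, hN, hfN⟩ := pick hf (u₁ + u₂ + d * (m₀ + u₂ + v₀ + K + 1))
    set v := u / d with hv
    have hv1 : m₀ + u₂ + v₀ + K + 1 ≤ v := by
      rw [hv, Nat.le_div_iff_mul_le (by omega)]
      have : (m₀ + u₂ + v₀ + K + 1) * d = d * (m₀ + u₂ + v₀ + K + 1) := by ring
      omega
    have hnnv : nn K (2 ^ v) = K * (v + 1) := by
      unfold nn
      rw [Nat.log_pow (by norm_num)]
    have hTn := hv₀ v (by omega)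
    rw [show s + 2 ^ v = zl θ (2 ^ v) from rfl, T1_eval, ← hKd, ← hnnv] at hTn
    have hdv : d * v ≤ u := by
      rw [hv]
      exact Nat.mul_div_le u d
    have huv : u < d * (v + 1) := by
      rw [hv]
      exact Nat.lt_mul_div_succ u (by omega)
    have hvu : v ≤ u := (Nat.le_mul_of_pos_left v (by omega)).trans hdv
    have hPv := hd v (by omega)
    rw [hPe] at hPv
    have hPu : 2 ^ (d * v) ≤ 2 ^ u := Nat.pow_le_pow_right (by norm_num) hdv
    have hvc : (v + 1) ^ (C + 2) ≤ 2 ^ v := by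
      have := hu₂ v (by omega)
      omega
    set n := (v + 1) ^ (C + 2) with hn
    have h3n : 3 * n ≤ 2 ^ u := (hu₂ v (by omega)).trans (Nat.pow_le_pow_right (by norm_num) hvu)
    have hKn : nn K (2 ^ v) ≤ n := by
      rw [hnnv, hn]
      calc K * (v + 1) ≤ (v + 1) * (v + 1) := Nat.mul_le_mul_right _ (by omega)
        _ = 1 * (v + 1) ^ 2 := by ring
        _ ≤ (v + 1) ^ C * (v + 1) ^ 2 := Nat.mul_le_mul_right _ (Nat.one_le_pow _ _ (by omega))
        _ = (v + 1) ^ (C + 2) := by rw [← pow_add]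
    have hnn1 : 1 ≤ nn K (2 ^ v) := by
      rw [hnnv, hKd]
      exact Nat.mul_pos (by omega) (by omega)
    have hN' : 2 ^ (n + 2 * nn K (2 ^ v) + 1) ≤ N + 1 :=
      le_trans (le_trans (Nat.pow_le_pow_right (by norm_num) (by omega)) hN) (Nat.le_succ _)
    -- the size of `n`
    have hbig : (u + 2) ^ C + 3 * (u + 2) + 12 ≤ n := by
      have h1 : u + 2 ≤ (d + 1) * (v + 1) := by nlinarith
      have h2 : (u + 2) ^ C ≤ (d + 1) ^ C * (v + 1) ^ C := by
        rw [← mul_pow]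
        exact Nat.pow_le_pow_left h1 C
      have h3 : 1 ≤ (v + 1) ^ C := Nat.one_le_pow _ _ (by omega)
      have h4 : n = (v + 1) ^ C * ((v + 1) * (v + 1)) := by rw [hn]; ring
      have h5 : m₀ * (v + 1) ≤ (v + 1) * (v + 1) := Nat.mul_le_mul_right _ (by omega)
      have h6 : (v + 1) ^ C * (m₀ * (v + 1)) ≤ n := by
        rw [h4]
        exact Nat.mul_le_mul_left _ h5
      have h7 : (v + 1) ^ C * (m₀ * (v + 1)) =
          (d + 1) ^ C * (v + 1) ^ C * (v + 1) + (v + 1) ^ C * ((3 * (d + 1) + 12) * (v + 1)) := by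
        rw [hm₀]; ring
      have h8 : (d + 1) ^ C * (v + 1) ^ C * 1 ≤ (d + 1) ^ C * (v + 1) ^ C * (v + 1) :=
        Nat.mul_le_mul_left _ (by omega)
      have h9 : 1 * ((3 * (d + 1) + 12) * (v + 1)) ≤
          (v + 1) ^ C * ((3 * (d + 1) + 12) * (v + 1)) := Nat.mul_le_mul_right _ h3
      have h10 : 3 * (u + 2) + 12 ≤ (3 * (d + 1) + 12) * (v + 1) := by nlinarith
      omega
    have hu5 : u + 6 ≤ n := by omega
    obtain ⟨w, hw⟩ : ∃ w, n = w + u + 6 := ⟨n - u - 6, by omega⟩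
    have hT1 : θ.1.p.eval (L1 θ (zl θ (2 ^ v))) ≤ 2 ^ u := by omega
    have hY : θ.2.2.1.eval (zl θ (2 ^ v)) ≤ 2 ^ u := by omega
    have hqv : qb.eval (L1 θ (zl θ (2 ^ v))) ≤ 2 ^ u := by omega
    refine cover_of_event (EvM θ K (C + 2) v N (2 ^ (w + 1)) (2 ^ (u + 1)))
      (EasyM (C + 2) θ) (fun A hA => evM_of_easy θ hqb hA hvc ?_ hN') f δ ?_
    · exact le_trans (Nat.pow_le_pow_right (by norm_num) (by omega)) hN
    · have hb := evM_bound θ (K := K) (c := C + 2) (v := v) (N := N) (σ := 2 ^ (w + 1))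
        (R := 2 ^ (u + 1)) (T := θ.1.p.eval (L1 θ (zl θ (2 ^ v)))) hnn1 hvc le_rfl
        Nat.one_le_two_pow (by rw [pow_succ]; omega) hTn
        (by
          have : 16 * 2 ^ (w + 1) * 2 ^ (u + 1) = 2 ^ (4 + (w + 1) + (u + 1)) := by
            rw [pow_add (2 : ℕ) (4 + _), pow_add (2 : ℕ) 4]; norm_num
          rw [this]
          exact Nat.pow_le_pow_right (by norm_num) (by omega)) hN'
      exact (mul_le_mul_of_nonneg_right hb (by positivity)).trans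
        ((small (by omega) hY hfN).trans (hu₁ u (by omega)))
  · obtain ⟨θ, hθ⟩ := mem_easyM (hO A hA)
    exact Set.mem_iUnion.2 ⟨θ, hθ⟩

end Pool.Agent.U965.SC
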